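import Pool.Agent.Q107.Assoc.Triang

/-!
# Almost all cycle lengths occur in the flip graph of the associahedron

The definitions `IsDiag`, `Crosses`, `IsTriangulation`, `Triang`, `Flip`, `flipGraph` and
`spectrum` are in `Pool.Agent.Q107.Assoc.Triang`.
-/

set_option autoImplicit false

namespace Pool.Agent.Results.MP_fb8c36_co.AlmostAll

open Filter Topology Q107.Assoc

/-- The flip graph of the polygon with `n + 2 ≥ 7` vertices misses at most `3 n ^ 2` of the lengths
up to the number of triangulations. -/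
theorem missing {n : ℕ} (hn : 5 ≤ n) :
    Nat.card (Triang (n + 2)) ≤ (spectrum (n + 2)).ncard + 3 * n ^ 2 := by
  rw [card_triang (by omega)]
  refine (count hn).trans (Nat.add_le_add_right (Set.ncard_le_ncard (SS_subset (by omega)) ?_) _)
  exact (Set.finite_Icc _ _).subset (spectrum_subset _)

theorem spectrum_le (N : ℕ) : (spectrum N).ncard ≤ Nat.card (Triang N) := by
  have : (Set.Icc 3 (Nat.card (Triang N))).ncard ≤ Nat.card (Triang N) := by
    rw [Set.ncard_eq_toFinset_card']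
    simp
  exact (Set.ncard_le_ncard (spectrum_subset N) (Set.finite_Icc _ _)).trans this

/-- `|S(G_N)| / |T_N| → 1`; moreover at most `3 (N - 2) ^ 2` of the lengths up to `|T_N|` are
missing for `N ≥ 7`. -/
theorem result :
    Tendsto (fun N : ℕ => ((spectrum N).ncard : ℝ) / (Nat.card (Triang N) : ℝ)) atTop (𝓝 1) ∧
    ∀ N : ℕ, 7 ≤ N → Nat.card (Triang N) ≤ (spectrum N).ncard + 3 * (N - 2) ^ 2 := by
  refine ⟨?_, fun N hN => ?_⟩
  swap
  · obtain ⟨n, rfl⟩ : ∃ n, N = n + 2 := ⟨N - 2, by omega⟩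
    exact missing (by omega)
  -- the lower bound
  have hlow : ∀ᶠ n : ℕ in atTop, 1 - 3 * ((n : ℝ) ^ 2 / 2 ^ (n - 1)) ≤
      ((spectrum (n + 2)).ncard : ℝ) / (Nat.card (Triang (n + 2)) : ℝ) := by
    filter_upwards [eventually_ge_atTop 5] with n hn
    have h1 := missing hn
    have h2 : (2 : ℝ) ^ (n - 1) ≤ Nat.card (Triang (n + 2)) := by
      rw [card_triang (by omega)]
      have := cn_grow (n - 1)
      rw [show n - 1 + 1 = n by omega] at this
      exact_mod_cast this
    have h3 : (0 : ℝ) < 2 ^ (n - 1) := by positivity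
    have h4 : (0 : ℝ) < Nat.card (Triang (n + 2)) := lt_of_lt_of_le h3 h2
    have h5 : (Nat.card (Triang (n + 2)) : ℝ) ≤ (spectrum (n + 2)).ncard + 3 * (n : ℝ) ^ 2 := by
      exact_mod_cast h1
    rw [le_div_iff₀ h4]
    have h6 : (n : ℝ) ^ 2 ≤ (n : ℝ) ^ 2 / 2 ^ (n - 1) * Nat.card (Triang (n + 2)) := by
      rw [div_mul_eq_mul_div, le_div_iff₀ h3]
      exact mul_le_mul_of_nonneg_left h2 (by positivity)
    nlinarith
  have hup : ∀ᶠ n : ℕ in atTop,
      ((spectrum (n + 2)).ncard : ℝ) / (Nat.card (Triang (n + 2)) : ℝ) ≤ 1 := by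
    filter_upwards with n
    apply div_le_one_of_le₀
    · exact_mod_cast spectrum_le (n + 2)
    · positivity
  have hlim : Tendsto (fun n : ℕ => 1 - 3 * ((n : ℝ) ^ 2 / 2 ^ (n - 1))) atTop (𝓝 1) := by
    have h1 : Tendsto (fun n : ℕ => (n : ℝ) ^ 2 / (2 : ℝ) ^ n) atTop (𝓝 0) :=
      tendsto_pow_const_div_const_pow_of_one_lt 2 (by norm_num)
    have h2 : Tendsto (fun n : ℕ => 1 - 6 * ((n : ℝ) ^ 2 / (2 : ℝ) ^ n)) atTop (𝓝 (1 - 6 * 0)) :=
      (h1.const_mul 6).const_sub 1
    rw [mul_zero, sub_zero] at h2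
    refine h2.congr' ?_
    filter_upwards [eventually_ge_atTop 1] with n hn
    have : (2 : ℝ) ^ n = 2 * 2 ^ (n - 1) := by
      rw [← pow_succ', show n - 1 + 1 = n by omega]
    rw [this]
    field_simp
    ring
  have h := tendsto_of_tendsto_of_tendsto_of_le_of_le' hlim tendsto_const_nhds hlow hup
  exact (tendsto_add_atTop_iff_nat 2).1 h

end Pool.Agent.Results.MP_fb8c36_co.AlmostAll
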